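import Pool.Agent.Helper750.CT.Coding
import Pool.Agent.Helper750.CT.DK
import Pool.Agent.Helper750.CT.QE
import Pool.Agent.Helper750.CT.Ryll
import Pool.Agent.Helper750.CT.Lim
import Pool.Agent.Helper750.CT.Dec
import Pool.Agent.Helper750.CT.ThK

set_option autoImplicit false

/-!
A countably categorical theory `T` with a computable model such that `T` is computable in `0'`, the
type function of `T` is not computable in `0'`, and the countable model of `T` is autostable.
-/

namespace Pool.Agent.Results.MP_c1eef4_lc.AutostableTypeFunction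

open Pool.Agent.Helper750.CT Pool.Agent.Helper750.DC Pool.Agent.Helper446.RE

/-- Satisfaction is preserved by isomorphisms (the language has no function symbols). -/
theorem Sat_iso {A B : Str} {f : ℕ → ℕ} (hf : IsIso LL A B f) (φ : Fml) :
    ∀ x : ℕ → ℕ, Sat LL A φ x ↔ Sat LL B φ fun i => f (x i) := by
  induction φ with
  | rel i vs =>
    intro x
    have h : vs.map (fun i => f (x i)) = (vs.map x).map f := by rw [List.map_map]; rfl
    simp only [Sat, h]
    constructor
    · rintro ⟨h1, h2⟩
      exact ⟨h1, (hf.2.1 i (vs.map x) (by rw [List.length_map]; exact h1)).1 h2⟩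
    · rintro ⟨h1, h2⟩
      exact ⟨h1, (hf.2.1 i (vs.map x) (by rw [List.length_map]; exact h1)).2 h2⟩
  | fn i vs w => intro x; simp [Sat, LL]
  | eq v w =>
    intro x
    simp only [Sat]
    exact hf.1.1.eq_iff.symm
  | not φ ih => intro x; simp only [Sat, ih]
  | and φ ψ ih1 ih2 => intro x; simp only [Sat, ih1, ih2]
  | ex v φ ih =>
    intro x
    simp only [Sat]
    have h : ∀ a, (fun i => f (Function.update x v a i)) =
        Function.update (fun i => f (x i)) v (f a) := by
      intro a
      funext i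
      by_cases hi : i = v
      · subst hi; simp
      · simp [Function.update_of_ne hi]
    constructor
    · rintro ⟨a, ha⟩
      refine ⟨f a, ?_⟩
      rw [← h, ← ih]
      exact ha
    · rintro ⟨b, hb⟩
      obtain ⟨a, rfl⟩ := hf.1.2 b
      refine ⟨a, ?_⟩
      rw [ih, h]
      exact hb

theorem iso_symm {A B : Str} {f g : ℕ → ℕ} (hf : IsIso LL A B f) (h1 : ∀ a, g (f a) = a)
    (h2 : ∀ b, f (g b) = b) : IsIso LL B A g := by
  refine ⟨⟨fun a b hab => ?_, fun a => ⟨f a, h1 a⟩⟩, fun i xs hi => ?_, fun i xs hi => ?_⟩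
  · rw [← h2 a, ← h2 b, hab]
  · have h3 : (xs.map g).map f = xs := by
      rw [List.map_map]
      conv_rhs => rw [← List.map_id xs]
      exact List.map_congr_left fun x _ => h2 x
    have h4 := hf.2.1 i (xs.map g) (by rw [List.length_map]; exact hi)
    rw [h3] at h4
    exact h4.symm
  · simp [LL] at hi

theorem iso_trans {A B C : Str} {f g : ℕ → ℕ} (hf : IsIso LL A B f) (hg : IsIso LL B C g) :
    IsIso LL A C fun a => g (f a) := by
  refine ⟨hg.1.comp hf.1, fun i xs hi => ?_, fun i xs hi => ?_⟩
  · rw [hf.2.1 i xs hi, hg.2.1 i (xs.map f) (by rw [List.length_map]; exact hi), List.map_map]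
    rfl
  · simp [LL] at hi

theorem comp_inv {f : ℕ → ℕ} (hf : Computable f) (hb : Function.Bijective f) :
    ∃ g : ℕ → ℕ, Computable g ∧ (∀ a, g (f a) = a) ∧ ∀ b, f (g b) = b := by
  obtain ⟨g, hg1, hg2⟩ := Function.bijective_iff_has_inverse.1 hb
  refine ⟨g, ?_, hg1, hg2⟩
  refine computable_of_graph ?_
  refine (eq (f := fun x : ℕ × ℕ => f x.2) (g := fun x => x.1) (hf.comp Computable.snd)
    Computable.fst).of_eq fun x => ?_
  constructor
  · intro h; rw [← h]; exact hg1 _
  · intro h; rw [← h]; exact hg2 _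

/-- There is a countably categorical theory `T` with a computable model, such that `T` is
computable in `0'`, the type function of `T` is not computable in `0'`, and any two computable
models of `T` are computably isomorphic. -/
theorem result : ∃ (L : Lang) (T : Set Fml), L.IsComputable ∧ IsComplete T ∧
    -- `T` has a computable model
    (∃ A, IsComputableStr L A ∧ IsModel L T A) ∧
    -- `T` is countably categorical
    (∀ A B, IsModel L T A → IsModel L T B → ∃ f, IsIso L A B f) ∧
    -- `T` is computable in `0'`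
    TLe (chi (codes T)) (chi K) ∧
    -- the type function of `T` is not computable in `0'`
    (∀ n, (types L T n).Finite) ∧ ¬ TLe (typeFn L T) (chi K) ∧
    -- the countable model of `T` is autostable
    ∀ A B, IsComputableStr L A → IsComputableStr L B → IsModel L T A → IsModel L T B →
      ∃ f, Computable f ∧ IsIso L A B f := by
  obtain ⟨ev, hev, hS⟩ := exists_ev
  have hG := gen ev
  have hpp := pp_comp ev hev
  have hM : IsComputableStr LL (MM ev) := MS_comp _ _ hpp ar_comp
  have hd : TLe (fun n => Encodable.encode (dd (pp ev) ar n)) (chi K) :=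
    dd_K _ _ hpp ar_comp (pp_convex ev)
  have hfin : ∀ k, {q | ∃ x, q = tp LL (MM ev) k x}.Finite := fin_types hG
  have hcat : ∀ B, IsModel LL (Th LL (MM ev)) B → ∃ f, IsIso LL (MM ev) B f := ryll _ hfin
  have htypes : ∀ k, types LL (Th LL (MM ev)) k = {q | ∃ x, q = tp LL (MM ev) k x} :=
    types_eq _ hfin
  refine ⟨LL, Th LL (MM ev), ⟨?_, ?_⟩, Th_complete _, ⟨MM ev, hM, fun φ hφ => hφ.2⟩, ?_, ?_, ?_,
    ?_, ?_⟩
  · exact Computable.option_some
  · exact Computable.const _
  · intro A B hA hB
    obtain ⟨f, hf⟩ := hcat A hA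
    obtain ⟨g, hg⟩ := hcat B hB
    obtain ⟨f', hf1, hf2⟩ := Function.bijective_iff_has_inverse.1 hf.1
    exact ⟨_, iso_trans (iso_symm hf hf1 hf2) hg⟩
  · exact Th_K _ _ _ hG hM hd fun φ N V x y h1 h2 h3 => qe hG hG φ N V x y h1 h2 h3
  · intro n
    rw [htypes]
    exact hfin n
  · intro ht
    have ht' : TLe (fun k => {q | ∃ x, q = tp LL (MM ev) k x}.ncard) (chi K) := by
      have h1 : (fun k => {q | ∃ x, q = tp LL (MM ev) k x}.ncard) =
          typeFn LL (Th LL (MM ev)) := by
        funext k
        unfold typeFn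
        rw [htypes]
      rw [h1]
      exact ht
    have h2 := range_K _ _ _ hG hM hd hfin (fun k x y => tp_eq_iff hG hG k x y) ht'
    have h3 := locs_K _ h2
    apply hS
    have h4 : {k | {u | ev k u = true}.Finite} =
        {k | ∃ m ∈ locs k, m ∈ {m | ∃ n, dd (pp ev) ar n = some m}} := by
      ext k
      exact code_iff ev k
    rw [h4]
    exact h3
  · intro A B hA hB hA' hB'
    obtain ⟨f0, hf0⟩ := hcat A hA'
    obtain ⟨g0, hg0⟩ := hcat B hB'
    obtain ⟨f, hf, hf2⟩ := auto ev hev A hA f0 hf0
    obtain ⟨g, hg, hg2⟩ := auto ev hev B hB g0 hg0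
    obtain ⟨f', hf', h1, h2⟩ := comp_inv hf hf2.1
    exact ⟨fun a => g (f' a), hg.comp hf', iso_trans (iso_symm hf2 h1 h2) hg2⟩

end Pool.Agent.Results.MP_c1eef4_lc.AutostableTypeFunction
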